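import Pool.Agent.Q160.Cantor3

/-!
MP_18fb49_co: eventually vanishing `T_u` (and even finite defect) does not force the longest
palindromic suffixes of all long factors to be unioccurrent.
-/

namespace Pool.Agent.Results.MP_18fb49_co.RepeatedSuffix

open Q160.WPal

variable {A : Type*}

/-- `p` is the longest palindromic suffix of `f`. -/
def IsLps (p f : List A) : Prop :=
  p <:+ f ∧ p.reverse = p ∧ ∀ q, q <:+ f → q.reverse = q → q.length ≤ p.length

/-- `p` occurs exactly once in `f`. -/
def Unioccurrent (p f : List A) : Prop :=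
  ∃ s t, f = s ++ p ++ t ∧ ∀ s' t', f = s' ++ p ++ t' → s' = s ∧ t' = t

/-- There is an infinite word over a four-letter alphabet whose language is closed under
reversal and contains infinitely many palindromes, with `T_u(n) = 0` for all large `n` and
defect at most one, such that for every `H` some factor of length at least `H` contains its
longest palindromic suffix at least twice. -/
theorem result : ∃ u : ℕ → Fin 4,
    ClosedRev u ∧ InfPal u ∧ (∃ N, ∀ n, N ≤ n → T u n = 0) ∧ defect u ≤ 1 ∧
    ∀ H, ∃ n f, H ≤ n ∧ f ∈ facN u n ∧ ∃ p, IsLps p f ∧ ¬ Unioccurrent p f := by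
  refine ⟨Q160.Cantor.u, Q160.Cantor.closedRev_u, Q160.Cantor.infPal_u, Q160.Cantor.T_zero,
    Q160.Cantor.defect_le_one, ?_⟩
  intro H
  obtain ⟨l, h1, h2, h3⟩ := Q160.Cantor.bad_factor H
  refine ⟨H + 4, fac Q160.Cantor.u l (H + 4), by omega, ⟨l, rfl⟩, [0], ⟨?_, rfl, ?_⟩, ?_⟩
  · rw [h3, List.append_nil]
    exact List.suffix_append _ _
  · intro q hq hp
    simpa using h1 q hq hp
  · rintro ⟨s, t, -, hu⟩
    have a1 := (hu _ _ h2).1
    have a2 := (hu _ _ h3).1
    have := congrArg List.length (a1.trans a2.symm)
    simp at this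

end Pool.Agent.Results.MP_18fb49_co.RepeatedSuffix
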